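import Pool.Agent.Lib_helper2.K4.DefsC
import Pool.Agent.Lib_helper2.K4C.Final
import Pool.Agent.Lib_helper2.K4N.Fin

set_option autoImplicit false

/-!
# MP_4132b3_nt, CuspidalX11

The elements of `K₄` of the modular curve `X₁(11) : y² + y = x³ - x²` built on its cuspidal units.

`k` is a field, `F` a field of characteristic zero over `k` and `x, y ∈ F` a generic point of the
curve: `y² + y = x³ - x²`, `x` transcendental over `k`. (For instance: `F` the function field of
`X₁(11)` over `k`.)

* `B2 F` is `B₂(F)` (`ℚ[F]` modulo the five term relations), `FT F = F^* ⊗ ℚ`, and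
  `HK F = B₂(F) ⊗ F^*_ℚ / ⟨{f}₂ ⊗ f⟩` is the degree two term of the weight three complex modulo
  the coboundaries; its differential is `{x}₂ ⊗ u ↦ (1-x) ∧ x ∧ u`.
* `W11 x y` is the universal elliptic curve with the point `P = (0,0)` of order eleven, `g` are its
  Siegel units, `t` is the triangulation, and `ξ = t(P,3P) ⊗ (g(3P) - g(P))`.
* `MU k x y` are the cuspidal units: up to a power of the function `hc`, the cuspidal part of the
  discriminant whose zeros are the five cusps which are not rational, they are units outside the
  five rational cusps.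

The unit equation `f + f' = 1` in cuspidal units has as only solutions the constants and the cross
ratios of the six points `x(aP)`, `0 ≤ a ≤ 5`. The closed elements of the span of the `{f}₂ ⊗ u`
(`f`, `1 - f` cuspidal units, `u` arbitrary) are the rational multiples of `ξ`, up to constants;
over subfields of `ℝ` the class `ξ` is not zero up to constants.
-/

namespace Pool.Agent.Results.MP_4132b3_nt.CuspidalX11

open Pool.Agent.MK4
open scoped TensorProduct WithZero

theorem result {k F : Type*} [Field k] [Field F] [CharZero F] [DecidableEq F] [Algebra k F]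
    (x y : F) (hE : y ^ 2 + y = x ^ 3 - x ^ 2) (hx : Transcendental k x)
    -- the universal curve
    (W : WeierstrassCurve.Affine F) (hW : W = W11 x y) :
    W.Δ = (x - 1) ^ 6 * y ^ 5 * (x + y) ^ 2 * hc x y / x ∧ W.Δ ≠ 0 ∧
    ∃ (A : AddSubgroup W.Point) (P : A) (g : A → FT F) (t : A → A → B2 F) (ξ : HK F),
      -- the point `P = (0,0)` of order eleven, its multiples `A`
      (∃ h, (P : W.Point) = .some 0 0 h) ∧ addOrderOf P = 11 ∧
      A = AddSubgroup.zmultiples (P : W.Point) ∧
      -- Siegel units, triangulation, and the class `ξ(P,3P)`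
      Siegel g ∧ (∀ g' : A → FT F, Siegel g' → g' = g) ∧
      Tri cr t ∧ (∀ t' : A → A → B2 F, Tri cr t' → t' = t) ∧
      ξ = hk (t P (3 • P)) (g (3 • P) - g P) ∧
      -- the class is built on cuspidal units, closed, and without residues
      ξ ∈ Cusp k x y ∧ Closed ξ ∧
      (∀ v : Valuation F ℤᵐ⁰, Infinite (RF v) → NoRes v ξ) ∧
      -- the unit equation
      UnitEq k x y (P : W.Point) ∧
      -- closed elements; closed elements without residues
      Complete k x y ξ ∧ CompleteRes k x y ξ ∧
      -- over a real field the class is not zero up to constants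
      (Nonempty (k →+* ℝ) → IntermediateField.adjoin k {x, y} = ⊤ → ξ ∉ Cst k F) ∧
      -- over `ℚ` the cuspidal units are the units of the affine modular curve
      RatUnits x y := by
  subst hW
  obtain ⟨h1, h2, A, P, g, t, ξ, a1, a2, a3, a4, a5, a6, a7, a8, a9, a10, a11, a12, a13, a14,
    a15⟩ := K4CC.final x y hE hx
  exact ⟨h1, h2, A, P, g, t, ξ, a1, a2, a3, a4, a5, a6, a7, a8, a9, a10, a11, a12, a13, a14,
    fun ⟨φ⟩ htop => K4N.not_mem_Cst φ hE hx htop ξ a13, a15⟩

end Pool.Agent.Results.MP_4132b3_nt.CuspidalX11
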