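import Pool.Agent.Lib_helper92.KSA.FinV

/-!
# A positive proportion of critical zeros for almost all Hecke L-functions of every number field

Selberg's theorem in the conductor aspect, for the Hecke L-functions of an arbitrary number field
`K` (L-functions of degree `[K : ℚ]` over the rationals), for every modulus, for almost every
individual primitive character, and in short intervals.

For every number field `K` and all `T, B` there is `C` such that for every ideal `𝔮` of the ring of
integers with `N𝔮 ≥ 2`, every interval `[a, b] ⊆ [-T, T]` and all `0 < H ≤ h ≤ b - a`: outside a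
set `E` of at most `C (b - a) |(𝓞_K/𝔮)ˣ| / (h H log N𝔮)` characters of `(𝓞_K/𝔮)ˣ`, every primitive
`χ` has the following property.  Every Hecke character `ψ` of `K` with finite part `χ` and infinity
type `(κ, λ)` bounded by `B` has an entire completed L-function `Λ(s, ψ)`, and every interval
`(x, x + h) ⊆ [a, b]` contains more than `h / H` ordinates of zeros of odd order of `Λ(s, ψ)` on the
line `Re s = 1/2`, and these are at least the proportion `h / (C H log N𝔮)` of all zeros of
`Λ(s, ψ)` with ordinate in `(x, x + h)`, counted with multiplicity.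

(Take `H = A / log N𝔮` with a large constant `A`.  For `[a, b] = [-T, T]` this is a positive
proportion in all intervals of length `h`; for `b - a = h` it is a statement for one fixed interval
at every scale `h ≥ H`.)  The infinity types are normalised by `∑_w λ_w = 0`, which removes the
twists by `N^{it}` (vertical shifts), and by `κ_w ∈ {0, 1}` at the real places, where only the
parity of `κ_w` matters.  If `B` is large enough in terms of `K`, every `χ` is the finite part of
such a Hecke character.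

The definitions `psiInf`, `IsPrim`, `IsHecke`, `gam`, `IsCompleted` are in
`Pool/Agent/Lib_helper41/HZF/Defs.lean`.

Authors of the blocks (team): helper3, helper6, helper7, helper8, helper9, helper14, helper20,
helper24, helper28, helper32, helper37, helper38, helper41, helper42, helper44, helper48, helper50,
helper53, helper55, helper58, helper60, helper62, helper63, helper78, helper80, helper85, helper89,
helper92, helper93, helper95.
-/

namespace Pool.Agent.Lib_helper24.Superseded.HeckeProportion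

open NumberField Complex Pool.Agent.HZ
open scoped ENNReal

/-- The number of `t` with `a < t < b` such that `1/2 + it` is a zero of odd order of `Λ`. -/
noncomputable def oddCritical (Λ : ℂ → ℂ) (a b : ℝ) : ℝ≥0∞ :=
  ({t : ℝ | a < t ∧ t < b ∧ Odd (analyticOrderNatAt Λ (1 / 2 + t * I))}.encard : ℝ≥0∞)

/-- The number of all zeros `ρ` of `Λ` with `a < Im ρ < b`, counted with multiplicity. -/
noncomputable def allZeros (Λ : ℂ → ℂ) (a b : ℝ) : ℝ≥0∞ :=
  ∑' ρ : {ρ : ℂ // a < ρ.im ∧ ρ.im < b}, (analyticOrderNatAt Λ ρ.1 : ℝ≥0∞)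

theorem result (K : Type) [Field K] [NumberField K] (T B : ℝ) : ∃ C : ℝ, 0 < C ∧
    ∀ 𝔮 : Ideal (𝓞 K), 2 ≤ Ideal.absNorm 𝔮 → ∀ a b h H : ℝ,
      -T ≤ a → b ≤ T → 0 < H → H ≤ h → h ≤ b - a →
      ∃ E : Finset (MulChar (𝓞 K ⧸ 𝔮) ℂ),
        (E.card : ℝ) ≤
          C * (b - a) * Nat.card (𝓞 K ⧸ 𝔮)ˣ / (h * H * Real.log (Ideal.absNorm 𝔮)) ∧
        ∀ χ : MulChar (𝓞 K ⧸ 𝔮) ℂ, χ ∉ E → IsPrim 𝔮 χ →
        ∀ κ : InfinitePlace K → ℤ, (∀ w, w.IsReal → κ w = 0 ∨ κ w = 1) → (∀ w, |(κ w : ℝ)| ≤ B) →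
        ∀ lam : InfinitePlace K → ℝ, (∀ w, |lam w| ≤ B) → ∑ w, lam w = 0 →
        ∀ ψ : Ideal (𝓞 K) →* ℂ, IsHecke 𝔮 κ lam χ ψ →
        ∃ Λ : ℂ → ℂ, IsCompleted κ lam ψ Λ ∧ ∀ x : ℝ, a ≤ x → x + h ≤ b →
          ENNReal.ofReal (h / H) < oddCritical Λ x (x + h) ∧
          ENNReal.ofReal (h / (C * H * Real.log (Ideal.absNorm 𝔮))) * allZeros Λ x (x + h) ≤
            oddCritical Λ x (x + h) := by
  classical
  obtain ⟨C, hC, hmain⟩ := Pool.Agent.KS.kselberg_final K T B
  refine ⟨C, hC, fun 𝔮 hN a b h H ha hb hH hHh hba => ?_⟩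
  have h1 := hmain 𝔮 hN a b h H ha hb hH hHh hba
  have h𝔮 : 𝔮 ≠ ⊥ := by
    rintro rfl
    simp at hN
  have : Finite (𝓞 K ⧸ 𝔮) := Pool.Agent.KS.finite_quo h𝔮
  set S : Set (MulChar (𝓞 K ⧸ 𝔮) ℂ) := {χ | IsPrim 𝔮 χ ∧
        ∃ (κ : InfinitePlace K → ℤ) (lam : InfinitePlace K → ℝ) (ψ : Ideal (𝓞 K) →* ℂ),
          (∀ w, |(κ w : ℝ)| ≤ B ∧ |lam w| ≤ B) ∧
          (∀ w : InfinitePlace K, w.IsReal → κ w = 0 ∨ κ w = 1) ∧ ∑ w, lam w = 0 ∧
          IsHecke 𝔮 κ lam χ ψ ∧
          ¬ ∃ Λ : ℂ → ℂ, IsCompleted κ lam ψ Λ ∧ ∀ x : ℝ, a ≤ x → x + h ≤ b →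
            ENNReal.ofReal (h / H) < oddCritical Λ x (x + h) ∧
            ENNReal.ofReal (h / (C * H * Real.log (Ideal.absNorm 𝔮))) * allZeros Λ x (x + h) ≤
              oddCritical Λ x (x + h)} with hS
  have hfin : S.Finite := Set.toFinite S
  refine ⟨hfin.toFinset, ?_, ?_⟩
  · have e : hfin.toFinset.card = Nat.card S := by
      rw [Nat.card_coe_set_eq, Set.ncard_eq_toFinset_card S hfin]
    rw [e]
    exact h1
  · intro χ hχ hp κ hκ hκB lam hlamB hlam ψ hψ
    by_contra hcon
    exact hχ (hfin.mem_toFinset.2 ⟨hp, κ, lam, ψ, fun w => ⟨hκB w, hlamB w⟩, hκ, hlam, hψ, hcon⟩)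

end Pool.Agent.Lib_helper24.Superseded.HeckeProportion
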