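import Pool.Agent.Lib_helper15.RB.KU

/-!
# Rubin's conjecture for 100 percent of the Kummer extensions `ℚ(ζ_q, a_1^{1/q}, …, a_k^{1/q})`
-/

namespace Pool.Agent.Results.MP_dd9835_nt.KummerRubin

open Pool.Agent.RB NumberField IsDedekindDomain

/-- Let `H/F` be an abelian extension of number fields with group `G`, and `F₀ ⊆ F`.

(1) Let `q = p ^ f` be a prime power and `k ≥ 1`. Let `F = ℚ(ζ_q)` and `H = F(a_1^{1/q}, …, a_k^{1/q})`
with `a ∈ ℤ^k` such that, for all `i`, more than `q (k f (p - 1) + 1)` primes `l ≠ p` divide `a_i`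
exactly once and divide no other `a_j` (`Many`). Then `G ≅ (ℤ/q)^k`, and Rubin's conjecture is true
for `H/F` and all `S`, `T`, `r`, `w_i`. This condition on `a` holds for all but at most
`ε (2 X + 1) ^ k` of the `a ∈ ℤ^k` with `|a_i| ≤ X`, for `X ≥ X₀(q, k, ε)`.

(2) Suppose that one of the following holds: `H/F` is a Kummer extension of exponent `n` which is
defined over `F₀`, where `F = F₀(ζ_n)`, `[F : F₀] = φ(n)` (`KumN`); `H/F₀` is Galois with group
`G ⋊ (ℤ/m)ˣ` (`HolT`); `H/F₀` is Galois and its group is a product of symmetric groups (`SymP`); all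
cyclic `K/F` in `H` are of holomorph type (`HolM`). Then for all data `S, T, r, w_i` as in Rubin's
conjecture there is an element `u = e_r u` with `(w_1^* ∧ … ∧ w_r^*)(λ(u)) = Θ` such that `#G u` lies
in Rubin's lattice. If `#G = p ^ e`, `G` is of exponent `p ^ f`, and more than
`m = p ^ (f - 1) ((e - f) (p - 1) + 1)` places in `S` do not split completely in `H`, then Rubin's
conjecture is true. -/
theorem result {F₀ F H : Type} [Field F₀] [NumberField F₀] [Field F] [NumberField F] [Field H]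
    [NumberField H] [Algebra F₀ F] [Algebra F₀ H] [Algebra F H] [IsScalarTower F₀ F H]
    [IsGalois F H] {G : Type} [CommGroup G] [Fintype G] (ι : MulEquiv G (AlgEquiv F H H))
    (S : Finset (InfinitePlace F ⊕ HeightOneSpectrum (RingOfIntegers F)))
    (T : Finset (HeightOneSpectrum (RingOfIntegers F))) {r : ℕ}
    (w : Fin r → InfinitePlace H ⊕ HeightOneSpectrum (RingOfIntegers H))
    (fr : HeightOneSpectrum (RingOfIntegers F) → G) :
    (∀ p f k : ℕ, p.Prime → 0 < f → 0 < k →
      (∀ a : Fin k → ℤ, Many p f a → IsCyclotomicExtension {p ^ f} ℚ F →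
        Polynomial.IsSplittingField F H (∏ i, (Polynomial.X ^ p ^ f - Polynomial.C (a i : F))) →
          Nonempty (MulEquiv G (Fin k → Multiplicative (ZMod (p ^ f)))) ∧
            (Data ι S T w fr → RubinOn ⊤ ι S T w fr)) ∧
      ∀ ε : ℝ, 0 < ε → ∃ X₀ : ℕ, ∀ X : ℕ, X₀ ≤ X →
        (Nat.card {a : Fin k → ℤ // (∀ i, |a i| ≤ X) ∧ ¬ Many p f a} : ℝ) ≤
          ε * (2 * X + 1) ^ k) ∧
    ((KumN F₀ F H ∨ HolT F₀ F H ∨ SymP F₀ H ∨
        ∀ K : IntermediateField F H, IsCyclic (AlgEquiv F K K) → HolM F K) →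
      Data ι S T w fr →
        RubinOn (Ideal.span {(Nat.card G : MonoidAlgebra ℤ G)}) ι S T w fr ∧
        ∀ p e f : ℕ, p.Prime → Nat.card G = p ^ e → Monoid.exponent G = p ^ f →
          r + p ^ (f - 1) * ((e - f) * (p - 1) + 1) < S.card → RubinOn ⊤ ι S T w fr) :=
  ⟨fun _ _ _ hp hf hk => ⟨fun a ha h1 h2 => ku_mid ι S T w fr hp hf hk a ha h1 h2,
    fun _ hε => ku_one hp hf hε⟩, fun hext hD => ku_two ι S T w fr hext hD⟩

end Pool.Agent.Results.MP_dd9835_nt.KummerRubin
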