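import Pool.Agent.Lib_helper15.RBL.Main

/-!
# Rubin's conjecture for all `T` and all large `S`, and for all `S` and most `T`
-/

namespace Pool.Agent.Results.MP_dd9835_nt.LargeSMostT

open Pool.Agent.RB NumberField IsDedekindDomain

/-- Let `F₀ ⊆ F ⊆ H ⊆ L` be number fields, `H/F` abelian of any degree with group `G`, `L/F₀` Galois.

(1) Suppose that `H/F` is a Kummer extension of exponent `n` with `F = F₀(ζ_n)`, `[F : F₀] = φ(n)` and
radicands in `F₀` (`KumN`), or that `H/F₀` is Galois with group `G ⋊ (ℤ/m)ˣ` (`HolT`) or with a product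
of symmetric groups as group (`SymP`), or that all cyclic `K/F` in `H` are of holomorph type (`HolM`).
Then there is a finite set `S₁` such that Rubin's conjecture is true for all `S ⊇ S₁` and all `T`, `r`,
`w_i`. It is also true for all `S`, `T`, `r`, `w_i` such that for every prime `p` dividing `#G`, more
than `p ^ (f - 1) ((e - f) (p - 1) + 1)` places in `S` have as decomposition group a nontrivial
`p`-group, where `p ^ e` and `p ^ f` are the exact powers of `p` in `#G` and in the exponent of `G`.

(2) Suppose that every character of `G`, inflated to `Gal(L/F)`, induces on `Gal(L/F₀)` the difference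
of two permutation characters (`PermInd`), or that `Gal(L/F₀)` is a product of symmetric groups, or
`HolT`, or `KumN`. Then for all `S`, `r`, `w_i` there is a set `C` of finite places of `F` outside `S`
with `∑_{v ∈ C} 1 / N v = ∞` such that Rubin's conjecture is true for `(S, T ∪ {v})` for all `T` as in
the conjecture and all `v ∈ C`, `v ∉ T`. -/
theorem result {F₀ F H L : Type} [Field F₀] [NumberField F₀] [Field F] [NumberField F] [Field H]
    [NumberField H] [Field L] [NumberField L] [Algebra F₀ F] [Algebra F₀ H] [Algebra F₀ L]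
    [Algebra F H] [Algebra F L] [Algebra H L] [IsScalarTower F₀ F H] [IsScalarTower F₀ F L]
    [IsScalarTower F H L] [IsGalois F H] [IsGalois F₀ L] {G : Type} [CommGroup G] [Fintype G]
    (ι : MulEquiv G (AlgEquiv F H H)) :
    ((KumN F₀ F H ∨ HolT F₀ F H ∨ SymP F₀ H ∨
        ∀ K : IntermediateField F H, IsCyclic (AlgEquiv F K K) → HolM F K) →
      ∃ S₁ : Finset (InfinitePlace F ⊕ HeightOneSpectrum (RingOfIntegers F)),
        ∀ (S : Finset (InfinitePlace F ⊕ HeightOneSpectrum (RingOfIntegers F)))
          (T : Finset (HeightOneSpectrum (RingOfIntegers F))) (r : ℕ)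
          (w : Fin r → InfinitePlace H ⊕ HeightOneSpectrum (RingOfIntegers H))
          (fr : HeightOneSpectrum (RingOfIntegers F) → G), Data ι S T w fr →
          (S₁ ⊆ S ∨ ∀ p e f : ℕ, p.Prime → p ∣ Nat.card G → (Nat.card G).factorization p = e →
            (Monoid.exponent G).factorization p = f → p ^ (f - 1) * ((e - f) * (p - 1) + 1) <
              Nat.card {v : InfinitePlace F ⊕ HeightOneSpectrum (RingOfIntegers F) //
                v ∈ S ∧ Dg ι v ≠ ⊥ ∧ IsPGroup p (Dg ι v)}) → RubinOn ⊤ ι S T w fr) ∧
    ((PermInd F₀ L ι ∨ SymP F₀ L ∨ HolT F₀ F H ∨ KumN F₀ F H) →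
      ∀ (S : Finset (InfinitePlace F ⊕ HeightOneSpectrum (RingOfIntegers F)))
        (T₀ : Finset (HeightOneSpectrum (RingOfIntegers F))) (r : ℕ)
        (w : Fin r → InfinitePlace H ⊕ HeightOneSpectrum (RingOfIntegers H))
        (fr : HeightOneSpectrum (RingOfIntegers F) → G), Data ι S T₀ w fr →
        ∃ C : Set (HeightOneSpectrum (RingOfIntegers F)), (∀ v ∈ C, Sum.inr v ∉ S) ∧
          ¬ Summable (fun v : C => (Ideal.absNorm v.1.asIdeal : ℝ)⁻¹) ∧
          ∀ (T : Finset (HeightOneSpectrum (RingOfIntegers F)))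
            (v : HeightOneSpectrum (RingOfIntegers F)) (hv : v ∉ T), Data ι S T w fr → v ∈ C →
              RubinOn ⊤ ι S (Finset.cons v T hv) w fr) := by
  refine ⟨fun h => ?_, fun h S T₀ r w fr hD => most hD h⟩
  obtain ⟨S₁, hS₁⟩ := exists_large ι
  exact ⟨S₁, fun S T r w fr hD hS => large ι (holAll (F₀ := F₀) ι h) hD
    (hS.elim (fun h1 => hS₁ S h1) id)⟩

end Pool.Agent.Results.MP_dd9835_nt.LargeSMostT
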