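import Mathlib
import Pool.Agent.Lib_helper24.Seven

/-!
# Real phase retrieval by projections in dimension seven: fewer than `2M - 1` subspaces

In `ℝ^7`, `N_min(7) ≤ N_4(7) ≤ 12 < 13 = N_1(7)`. This is the first odd dimension in which fewer than
`2M - 1` subspaces suffice (in dimensions `3` and `5` they do not).
-/

namespace Pool.Agent.Results.MP_f4c587_an.SevenDim

/-- The family `W_1,...,W_N` of subspaces of `ℝ^M` (Euclidean inner product) allows phase
retrieval: if the orthogonal projections of `x` and `y` onto every `W n` have equal norms, then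
`x = y` or `x = -y`. -/
def AllowsPhaseRetrieval {M N : ℕ} (W : Fin N → Submodule ℝ (EuclideanSpace ℝ (Fin M))) : Prop :=
  ∀ x y : EuclideanSpace ℝ (Fin M),
    (∀ n, ‖(W n).starProjection x‖ = ‖(W n).starProjection y‖) → x = y ∨ x = -y

/-- The set of `N` for which some family of `N` subspaces of `ℝ^M` allows phase retrieval.
Its least element is `N_min(M)`. -/
def CountsAny (M : ℕ) : Set ℕ :=
  {N | ∃ W : Fin N → Submodule ℝ (EuclideanSpace ℝ (Fin M)), AllowsPhaseRetrieval W}

/-- The set of `N` for which some family of `N` subspaces of `ℝ^M`, each of dimension exactly `k`,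
allows phase retrieval. Its least element is `N_k(M)`. -/
def Counts (M k : ℕ) : Set ℕ :=
  {N | ∃ W : Fin N → Submodule ℝ (EuclideanSpace ℝ (Fin M)),
      (∀ n, Module.finrank ℝ (W n) = k) ∧ AllowsPhaseRetrieval W}

/-- In `ℝ^7` the least number `c = N_min(7)` of subspaces allowing phase retrieval and the least
number `a = N_4(7)` for subspaces of dimension exactly `4` satisfy `c ≤ a ≤ 12`, while the least
number `b = N_1(7)` for lines is exactly `13`. -/
theorem result : ∃ c a b : ℕ, IsLeast (CountsAny 7) c ∧ IsLeast (Counts 7 4) a ∧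
    IsLeast (Counts 7 1) b ∧ c ≤ a ∧ a ≤ 12 ∧ b = 13 := by
  have hmain : 12 ∈ Counts 7 4 := Pool.Agent.Lib_helper24.Seven.exists_family7
  have hany : ∀ N ∈ Counts 7 4, N ∈ CountsAny 7 := fun N hN => by
    obtain ⟨W, -, hW⟩ := hN
    exact ⟨W, hW⟩
  refine ⟨sInf (CountsAny 7), sInf (Counts 7 4), 13,
    ⟨Nat.sInf_mem ⟨_, hany _ hmain⟩, fun N hN => Nat.sInf_le hN⟩,
    ⟨Nat.sInf_mem ⟨_, hmain⟩, fun N hN => Nat.sInf_le hN⟩,
    ⟨Pool.Agent.Lib_helper96.PhaseRetrieval.lines_upper (M := 7) (by norm_num), fun N hN => ?_⟩,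
    Nat.sInf_le (hany _ (Nat.sInf_mem ⟨_, hmain⟩)), Nat.sInf_le hmain, rfl⟩
  obtain ⟨W, h1, h2⟩ := hN
  exact Pool.Agent.Lib_helper96.PhaseRetrieval.lines_lower (M := 7) (by norm_num) W h1 h2

end Pool.Agent.Results.MP_f4c587_an.SevenDim
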